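import Pool.Agent.helper13.RF.Spec1

/-! Row rf:TOW (ramification in towers) of project RF. -/

set_option autoImplicit false

open NumberField
open scoped nonZeroDivisors

namespace Pool.Agent.RF

/-- in a Galois extension the ramification index divides the degree -/
theorem TOW_dvd (K L : Type) [Field K] [NumberField K] [Field L] [NumberField L] [Algebra K L] [IsGalois K L]
    (P : Ideal (𝓞 L)) [P.IsPrime] : P.ramificationIdx (𝓞 K) ∣ Module.finrank K L := by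
  have h := Ideal.ncard_primesOver_mul_ramificationIdxIn_mul_inertiaDegIn (P.under (𝓞 K)) (𝓞 L) Gal(L/K)
  rw [Ideal.ramificationIdxIn_eq_ramificationIdx (P.under (𝓞 K)) P Gal(L/K), IsGalois.card_aut_eq_finrank] at h
  exact ⟨(Ideal.primesOver (P.under (𝓞 K)) (𝓞 L)).ncard * Ideal.inertiaDegIn (P.under (𝓞 K)) (𝓞 L), by rw [← h]; ring⟩

theorem TOW : TOW_stmt := by
  intro K L N M _ _ _ _ _ _ _ _ _ _ _ _ _ _ _ hL hL5 hN hN4 hU P hP hP0
  haveI := hP
  obtain ⟨⟨Q, hQ, hQP⟩⟩ := (inferInstance : Nonempty (Ideal.primesOver P (𝓞 M)))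
  haveI := hQ
  haveI := hQP
  have hQ0 : Q ≠ ⊥ := Ideal.ne_bot_of_liesOver_of_ne_bot hP0 Q
  have h1 : Q.ramificationIdx (𝓞 K) = P.ramificationIdx (𝓞 K) * Q.ramificationIdx (𝓞 L) := Ideal.ramificationIdx_tower P Q
  have h2 : Q.ramificationIdx (𝓞 K) = (Q.under (𝓞 N)).ramificationIdx (𝓞 K) * Q.ramificationIdx (𝓞 N) :=
    Ideal.ramificationIdx_tower (Q.under (𝓞 N)) Q
  rw [hU Q hQ hQ0, mul_one] at h2
  have h3 : P.ramificationIdx (𝓞 K) ∣ 4 := by
    have h4 := TOW_dvd K N (Q.under (𝓞 N))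
    rw [hN4, ← h2, h1] at h4
    exact (Dvd.intro _ rfl).trans h4
  have h5 : P.ramificationIdx (𝓞 K) ∣ 5 := by
    have h4 := TOW_dvd K L P
    rwa [hL5] at h4
  have h6 : P.ramificationIdx (𝓞 K) ∣ Nat.gcd 4 5 := Nat.dvd_gcd h3 h5
  exact Nat.dvd_one.1 h6

end Pool.Agent.RF
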