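import Pool.Agent.helper13.RF.Spec1

/-! Row rf:UNB (Kummer extensions of degree 5 unramified over 5) of project RF. -/

set_option autoImplicit false

open NumberField
open scoped nonZeroDivisors

namespace Pool.Agent.RF

open Polynomial in
/-- the criterion: the derivative of the minimal polynomial of an integral generator is not in `P` -/
theorem UNB_der (N M : Type) [Field N] [NumberField N] [Field M] [NumberField M] [Algebra N M] (y : 𝓞 M) (g : (𝓞 N)[X]) (hg : g.Monic)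
    (hdeg : g.natDegree = Module.finrank N M) (hroot : aeval y g = 0) (hadj : IntermediateField.adjoin N {(y : M)} = ⊤)
    (P : Ideal (𝓞 M)) [P.IsPrime] (hP : aeval y (derivative g) ∉ P) : P.ramificationIdx (𝓞 N) = 1 := by
  have hint : IsIntegral (𝓞 N) y := ⟨g, hg, hroot⟩
  have hintN : IsIntegral N (y : M) := IsIntegral.of_finite N _
  have h1 : minpoly N (y : M) = (minpoly (𝓞 N) y).map (algebraMap (𝓞 N) N) :=
    minpoly.isIntegrallyClosed_eq_field_fractions N M hint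
  have h2 : (minpoly (𝓞 N) y).natDegree = Module.finrank N M := by
    have h3 := IntermediateField.adjoin.finrank hintN
    rw [hadj, IntermediateField.finrank_top'] at h3
    rw [h3, h1, (minpoly.monic hint).natDegree_map]
  have h4 : minpoly (𝓞 N) y = g := by
    refine eq_of_dvd_of_natDegree_le_of_leadingCoeff (minpoly.isIntegrallyClosed_dvd hint hroot) ?_ ?_
    · rw [h2, hdeg]
    · rw [(minpoly.monic hint).leadingCoeff, hg.leadingCoeff]
  have h5 : Algebra.adjoin N {algebraMap (𝓞 M) M y} = ⊤ := by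
    have h6 := IntermediateField.adjoin_simple_toSubalgebra_of_isAlgebraic hintN.isAlgebraic
    rw [hadj, IntermediateField.top_toSubalgebra] at h6
    exact h6.symm
  have h6 := aeval_derivative_mem_differentIdeal (𝓞 N) N M y h5
  rw [h4] at h6
  have h7 : ¬ P ∣ differentIdeal (𝓞 N) (𝓞 M) := by
    intro h
    exact hP (Ideal.dvd_iff_le.1 h h6)
  haveI : Algebra.IsUnramifiedAt (𝓞 N) P := not_dvd_differentIdeal_iff.1 h7
  exact Ideal.ramificationIdx_eq_one P (𝓞 N)

theorem UNB_eps {R : Type} [CommRing R] (z : R) (hz : 1 + z + z ^ 2 + z ^ 3 + z ^ 4 = 0) :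
    ∃ e e' : R, (1 - z) ^ 4 * e = 5 ∧ e * e' = 1 := by
  refine ⟨-(z ^ 4 * (1 + z) * (1 + z + z ^ 2)), -(z * (1 + z ^ 2 + z ^ 4) * (1 + z ^ 3)), ?_, ?_⟩
  · linear_combination (-5 + 5 * z - z ^ 4 - 2 * z ^ 5 + 3 * z ^ 6 - z ^ 7) * hz
  · linear_combination (-1 + z + 2 * z ^ 6 + z ^ 7 + z ^ 8 + z ^ 9 + z ^ 10 + z ^ 11) * hz

open Polynomial in
/-- the polynomial of `(α - 1)/λ` -/
noncomputable def UNB_g {A : Type} [CommRing A] (l e u : A) : A[X] :=
  X ^ 5 + C (l ^ 3 * e) * X ^ 4 + C (2 * l ^ 2 * e) * X ^ 3 + C (2 * l * e) * X ^ 2 + C e * X + C (-(l ^ 3 * e ^ 2 * u))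

open Polynomial in
theorem UNB_gm {A : Type} [CommRing A] [Nontrivial A] (l e u : A) : (UNB_g l e u).Monic ∧ (UNB_g l e u).natDegree = 5 := by
  refine ⟨?_, ?_⟩
  · unfold UNB_g
    monicity!
  · unfold UNB_g
    compute_degree!

open Polynomial in
theorem UNB_ga {A B : Type} [CommRing A] [CommRing B] [Algebra A B] (l e u : A) (y : B) :
    aeval y (UNB_g l e u) = y ^ 5 + (algebraMap A B l ^ 3 * algebraMap A B e) * y ^ 4 + (2 * algebraMap A B l ^ 2 * algebraMap A B e) * y ^ 3 +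
      (2 * algebraMap A B l * algebraMap A B e) * y ^ 2 + algebraMap A B e * y + (-(algebraMap A B l ^ 3 * algebraMap A B e ^ 2 * algebraMap A B u)) := by
  unfold UNB_g
  rw [aeval_add, aeval_add, aeval_add, aeval_add, aeval_add, aeval_mul, aeval_mul, aeval_mul, aeval_mul, aeval_C, aeval_C, aeval_C, aeval_C, aeval_C, aeval_X_pow,
    aeval_X_pow, aeval_X_pow, aeval_X_pow, aeval_X]
  simp only [map_mul, map_pow, map_neg, map_ofNat]

open Polynomial in
theorem UNB_gd {A B : Type} [CommRing A] [CommRing B] [Algebra A B] (l e u : A) (y : B) :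
    aeval y (derivative (UNB_g l e u)) = 5 * y ^ 4 + algebraMap A B l * (4 * (algebraMap A B l ^ 2 * algebraMap A B e) * y ^ 3 +
        6 * (algebraMap A B l * algebraMap A B e) * y ^ 2 + 4 * algebraMap A B e * y) + algebraMap A B e := by
  have h1 : derivative (UNB_g l e u) = C 5 * X ^ 4 + C (4 * (l ^ 3 * e)) * X ^ 3 + C (3 * (2 * l ^ 2 * e)) * X ^ 2 + C (2 * (2 * l * e)) * X + C e := by
    unfold UNB_g
    simp only [derivative_add, derivative_C_mul, derivative_X_pow, derivative_X, derivative_C, mul_one, add_zero]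
    simp only [C_mul, map_ofNat, C_pow]
    push_cast
    simp only [map_ofNat]
    ring
  rw [h1, aeval_add, aeval_add, aeval_add, aeval_add, aeval_mul, aeval_mul, aeval_mul, aeval_mul, aeval_C, aeval_C, aeval_C, aeval_C, aeval_C, aeval_X_pow,
    aeval_X_pow, aeval_X_pow, aeval_X]
  simp only [map_mul, map_pow, map_ofNat]
  ring

open Polynomial in
theorem UNB : UNB_stmt := by
  intro N M _ _ _ _ _ ζ α b u hζ hα hb hfin hadj P hP hP0 h5P
  haveI := hP
  have hs : 1 + ζ + ζ ^ 2 + ζ ^ 3 + ζ ^ 4 = 0 := by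
    have h := hζ.geom_sum_eq_zero (by norm_num)
    simp only [Finset.sum_range_succ, Finset.sum_range_zero, pow_zero, pow_one, zero_add] at h
    exact h
  have hinj : Function.Injective (algebraMap (𝓞 N) N) := FaithfulSMul.algebraMap_injective (𝓞 N) N
  obtain ⟨z, hzN⟩ : ∃ z : 𝓞 N, algebraMap (𝓞 N) N z = ζ := ⟨⟨ζ, hζ.isIntegral (by norm_num)⟩, rfl⟩
  have hzs : 1 + z + z ^ 2 + z ^ 3 + z ^ 4 = 0 := by
    apply hinj
    simp only [map_add, map_pow, map_one, map_zero, hzN]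
    exact hs
  obtain ⟨e, e', he, hee⟩ := UNB_eps z hzs
  obtain ⟨l, hl⟩ : ∃ l : 𝓞 N, l = 1 - z := ⟨_, rfl⟩
  rw [← hl] at he
  have hl0 : l ≠ 0 := by
    intro h1
    rw [h1] at he
    have h2 : (5 : 𝓞 N) = 0 := by
      rw [← he]
      ring
    norm_num at h2
  obtain ⟨hgm, hgd⟩ := UNB_gm l e u
  have hinjM : Function.Injective (algebraMap (𝓞 N) M) := FaithfulSMul.algebraMap_injective (𝓞 N) M
  have hlM0 : algebraMap (𝓞 N) M l ≠ 0 := by
    intro h
    exact hl0 (hinjM (by rw [h, map_zero]))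
  obtain ⟨y0, hy0⟩ : ∃ y0 : M, y0 = (α - 1) / algebraMap (𝓞 N) M l := ⟨_, rfl⟩
  have hαy : α = 1 + algebraMap (𝓞 N) M l * y0 := by
    rw [hy0, mul_div_cancel₀ _ hlM0]
    ring
  have he5 : algebraMap (𝓞 N) M l ^ 4 * algebraMap (𝓞 N) M e = 5 := by
    rw [← map_pow, ← map_mul, he, map_ofNat]
  have hroot0 : aeval y0 (UNB_g l e u) = 0 := by
    rw [UNB_ga]
    have h1 : α ^ 5 = 1 + 25 * algebraMap (𝓞 N) M u := by
      rw [hα]
      have h2 : algebraMap N M (b : N) = algebraMap (𝓞 N) M b := (IsScalarTower.algebraMap_apply (𝓞 N) N M b).symm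
      rw [h2, hb, map_add, map_mul, map_one, map_ofNat]
    rw [hαy] at h1
    have h2 : algebraMap (𝓞 N) M l ^ 5 * (y0 ^ 5 + (algebraMap (𝓞 N) M l ^ 3 * algebraMap (𝓞 N) M e) * y0 ^ 4 +
        (2 * algebraMap (𝓞 N) M l ^ 2 * algebraMap (𝓞 N) M e) * y0 ^ 3 + (2 * algebraMap (𝓞 N) M l * algebraMap (𝓞 N) M e) * y0 ^ 2 +
        algebraMap (𝓞 N) M e * y0 + (-(algebraMap (𝓞 N) M l ^ 3 * algebraMap (𝓞 N) M e ^ 2 * algebraMap (𝓞 N) M u))) = 0 := by
      have h3 : algebraMap (𝓞 N) M l ^ 8 * algebraMap (𝓞 N) M e ^ 2 = 25 := by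
        calc algebraMap (𝓞 N) M l ^ 8 * algebraMap (𝓞 N) M e ^ 2 = (algebraMap (𝓞 N) M l ^ 4 * algebraMap (𝓞 N) M e) ^ 2 := by ring
          _ = 25 := by rw [he5]; norm_num
      linear_combination h1 + (algebraMap (𝓞 N) M l ^ 4 * y0 ^ 4 + 2 * algebraMap (𝓞 N) M l ^ 3 * y0 ^ 3 + 2 * algebraMap (𝓞 N) M l ^ 2 * y0 ^ 2 +
        algebraMap (𝓞 N) M l * y0) * he5 - algebraMap (𝓞 N) M u * h3
    exact (mul_eq_zero.1 h2).resolve_left (pow_ne_zero 5 hlM0)
  have hint0 : IsIntegral (𝓞 N) y0 := ⟨UNB_g l e u, hgm, hroot0⟩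
  have hint1 : IsIntegral ℤ y0 := isIntegral_trans y0 hint0
  obtain ⟨y, hyM⟩ : ∃ y : 𝓞 M, algebraMap (𝓞 M) M y = y0 := ⟨⟨y0, hint1⟩, rfl⟩
  have hroot : aeval y (UNB_g l e u) = 0 := by
    have h1 : algebraMap (𝓞 M) M (aeval y (UNB_g l e u)) = aeval y0 (UNB_g l e u) := by
      rw [← hyM, aeval_algebraMap_apply]
    apply FaithfulSMul.algebraMap_injective (𝓞 M) M
    rw [h1, hroot0, map_zero]
  have hadj' : IntermediateField.adjoin N {(y : M)} = ⊤ := by
    have hyM' : (y : M) = y0 := hyM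
    rw [← top_le_iff, ← hadj, IntermediateField.adjoin_simple_le_iff, hyM', hαy]
    have h1 : y0 ∈ IntermediateField.adjoin N {y0} := IntermediateField.mem_adjoin_simple_self N y0
    refine add_mem (one_mem _) (mul_mem ?_ h1)
    rw [IsScalarTower.algebraMap_apply (𝓞 N) N M]
    exact IntermediateField.algebraMap_mem _ _
  refine UNB_der N M y (UNB_g l e u) hgm (by rw [hgd, hfin]) hroot hadj' P ?_
  -- the derivative
  intro hmem
  have hlP : algebraMap (𝓞 N) (𝓞 M) l ∈ P := by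
    have h1 : (algebraMap (𝓞 N) (𝓞 M) l) ^ 4 ∈ P := by
      have h2 : (algebraMap (𝓞 N) (𝓞 M) l) ^ 4 = 5 * algebraMap (𝓞 N) (𝓞 M) e' := by
        rw [← map_pow]
        have h3 : l ^ 4 = 5 * e' := by
          calc l ^ 4 = l ^ 4 * (e * e') := by rw [hee, mul_one]
            _ = (l ^ 4 * e) * e' := by ring
            _ = 5 * e' := by rw [he]
        rw [h3, map_mul, map_ofNat]
      rw [h2]
      exact P.mul_mem_right _ h5P
    exact hP.mem_of_pow_mem 4 h1
  have heP : algebraMap (𝓞 N) (𝓞 M) e ∈ P := by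
    rw [UNB_gd] at hmem
    refine (P.add_mem_iff_right ?_).1 hmem
    exact P.add_mem (P.mul_mem_right _ h5P) (P.mul_mem_right _ hlP)
  have h1 : (1 : 𝓞 M) ∈ P := by
    have h2 : (1 : 𝓞 M) = algebraMap (𝓞 N) (𝓞 M) e * algebraMap (𝓞 N) (𝓞 M) e' := by
      rw [← map_mul, hee, map_one]
    rw [h2]
    exact P.mul_mem_right _ heP
  exact hP.ne_top ((Ideal.eq_top_iff_one P).2 h1)

end Pool.Agent.RF
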